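import Pool.Agent.H345R2.A5.Const

/-!
# Isolated zeros of zeta in almost all short intervals, unconditionally

For `0 < η < 1`, `0 < λ ≤ min((1 + η)/2, 8η/3)` and `0 ≤ r ≤ 1/3`: for all `t ∈ [T, 2T]` outside a
set of measure `T ^ (1 - δ)` and every `T ^ η ≤ H ≤ T / 8`, a proportion `(5 - 3 c(λ))/2 - ε`
(resp. `3 - 2 c(λ) - ε`, `1 - (c(λ) - 1)/K(r)² - ε`) of the nontrivial zeros with ordinate in
`(t, t + H]` are simple, on the critical line and isolated (three notions of isolation).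
-/

open Filter Topology MeasureTheory

namespace Pool.Agent.Results.MP_af3d17_nt.IsolatedAlmostAllShort

/-- the nontrivial zeros of zeta with ordinate in `(a, b]` -/
def zeros (a b : ℝ) : Set ℂ :=
  {s : ℂ | riemannZeta s = 0 ∧ 0 < s.re ∧ s.re < 1 ∧ a < s.im ∧ s.im ≤ b}

/-- the number of nontrivial zeros with ordinate in `(a, b]`, counted with multiplicity -/
noncomputable def N (a b : ℝ) : ℕ := ∑ᶠ s ∈ zeros a b, analyticOrderNatAt riemannZeta s

/-- `s` is on the critical line, is a simple zero, and the ordinate of every other nontrivial zero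
is at distance more than `r` times `2π / log (Im s)` from `Im s` -/
def IsoOrd (r : ℝ) (s : ℂ) : Prop :=
  s.re = 1 / 2 ∧ analyticOrderNatAt riemannZeta s = 1 ∧
    ∀ s' : ℂ, riemannZeta s' = 0 → 0 < s'.re → s'.re < 1 → s' ≠ s →
      r * (2 * Real.pi / Real.log s.im) < |s'.im - s.im|

/-- `s` is on the critical line, is a simple zero, and no other nontrivial zero lies in the
closed box with centre `s`, half height `r` times and half width `w` times `2π / log (Im s)` -/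
def IsoBox (r w : ℝ) (s : ℂ) : Prop :=
  s.re = 1 / 2 ∧ analyticOrderNatAt riemannZeta s = 1 ∧
    ∀ s' : ℂ, riemannZeta s' = 0 → 0 < s'.re → s'.re < 1 → s' ≠ s →
      ¬ (|s'.im - s.im| ≤ r * (2 * Real.pi / Real.log s.im) ∧
        |s'.re - 1 / 2| ≤ w * (2 * Real.pi / Real.log s.im))

/-- the number of zeros with ordinate in `(a, b]` and the property `Q` -/
noncomputable def NQ (Q : ℂ → Prop) (a b : ℝ) : ℕ := {s : ℂ | s ∈ zeros a b ∧ Q s}.ncard

/-- `u = cot(1/√2)/√2` -/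
noncomputable def u : ℝ := Real.cot (1 / Real.sqrt 2) / Real.sqrt 2

/-- `c(h) = (1/4 + u/2 + u²/2)/h + (1/4 + u/2 - u²/2) h` -/
noncomputable def c (h : ℝ) : ℝ :=
  (1 / 4 + u / 2 + u ^ 2 / 2) / h + (1 / 4 + u / 2 - u ^ 2 / 2) * h

/-- the Montgomery-Taylor kernel at `r` -/
noncomputable def K (r : ℝ) : ℝ :=
  (∫ t in (-1 / 2 : ℝ)..(1 / 2), Real.cos (Real.sqrt 2 * t) * Real.cos (2 * Real.pi * r * t)) /
    (Real.sqrt 2 * Real.sin (1 / Real.sqrt 2))

theorem zeros_eq (a b : ℝ) : zeros a b = H370.zset riemannZeta a b := by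
  ext s
  simp only [zeros, H370.zset, Set.mem_ofPred_eq]
  tauto

/-- the sets of zeros that are counted are finite -/
theorem zeros_finite (a b : ℝ) (h : 0 < a) : (zeros a b).Finite := by
  rw [zeros_eq]
  exact H370.zset_finite' H370.good_zeta a b h

theorem N_eq (a b : ℝ) : N a b = H370.NN riemannZeta a b := by
  unfold N H370.NN H370.mult
  rw [zeros_eq]

theorem isoOrd_iff (r : ℝ) (s : ℂ) : IsoOrd r s ↔ H344.Qord riemannZeta r s := by
  unfold IsoOrd H344.Qord H370.mult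
  have e1 : r * (2 * Real.pi / Real.log s.im) = 2 * Real.pi * r / Real.log s.im := by ring
  simp only [e1]

theorem isoBox_iff (r lam : ℝ) (s : ℂ) :
    IsoBox (r / lam) (2 / (5 * lam)) s ↔ H370.A5.Qb riemannZeta r lam s := by
  unfold IsoBox H370.A5.Qb H370.mult
  have e1 : r / lam * (2 * Real.pi / Real.log s.im) = 2 * Real.pi * r / (lam * Real.log s.im) := by
    rw [div_mul_div_comm]; congr 1; ring
  have e2 : 2 / (5 * lam) * (2 * Real.pi / Real.log s.im) =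
      4 * Real.pi / 5 / (lam * Real.log s.im) := by
    rw [div_mul_div_comm, div_div]; congr 1 <;> ring
  simp only [e1, e2, not_and, not_le]

theorem NQ_ord (r a b : ℝ) : NQ (IsoOrd r) a b = H344.PQ riemannZeta (H344.Qord riemannZeta r) a b := by
  unfold NQ H344.PQ
  simp only [zeros_eq, isoOrd_iff]

theorem NQ_box (r lam a b : ℝ) : NQ (IsoBox (r / lam) (2 / (5 * lam))) a b =
    H344.PQ riemannZeta (H370.A5.Qb riemannZeta r lam) a b := by
  unfold NQ H344.PQ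
  simp only [zeros_eq, isoBox_iff]

theorem K_eq (r : ℝ) : K r = H344.KK r := by
  have h := H370.GramAux.kap_re_mul (2 * Real.pi * r)
  have hd := H370.GramAux.den_pos.ne'
  unfold K H344.KK
  rw [← h, mul_div_cancel_left₀ _ hd]

theorem result :
    (∀ η lam r ε : ℝ, 0 < η → η < 1 → 0 < lam → lam ≤ (1 + η) / 2 → lam ≤ 8 * η / 3 →
      0 ≤ r → r ≤ 1 / 3 → 0 < ε →
      ∃ δ : ℝ, 0 < δ ∧ ∃ T₀ : ℝ, ∀ T : ℝ, T₀ ≤ T → ∀ H : ℝ, T ^ η ≤ H → H ≤ T / 8 →
        volume {t : ℝ | T ≤ t ∧ t ≤ 2 * T ∧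
          ¬ (((5 - 3 * c lam) / 2 - ε) * (N t (t + H) : ℝ) ≤
              NQ (IsoOrd (1 / (6 * lam))) t (t + H) ∧
            (3 - 2 * c lam - ε) * (N t (t + H) : ℝ) ≤
              NQ (IsoOrd (1 / (3 * lam))) t (t + H) ∧
            (1 - (c lam - 1) / K r ^ 2 - ε) * (N t (t + H) : ℝ) ≤
              NQ (IsoBox (r / lam) (2 / (5 * lam))) t (t + H))} ≤
          ENNReal.ofReal (T ^ (1 - δ))) ∧
    (∀ h : ℝ, 0 < h → h ≤ 1 → c h ≤ 1.0062 / h + 0.3214 * h) ∧
    (∀ r : ℝ, 0 ≤ r → r ≤ 1 / 3 → 0.678 ≤ K r ^ 2 ∧ 1 - 1.54 * r ^ 2 ≤ K r) := by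
  refine ⟨fun η lam r ε h0 h1 hl h2 h3 hr0 hr1 hε => ?_, H370.A5.cu_le, fun r h0 h1 => ?_⟩
  · obtain ⟨δ, hδ, T0, hT1, hT0⟩ := H370.A5.final r hr0 hr1 η lam ε h0 h1 hl h2 h3 hε
    refine ⟨δ, hδ, T0, fun T hT H hH1 hH2 => (measure_mono ?_).trans (hT0 T hT H hH1 hH2)⟩
    rintro t ⟨ht1, ht2, ht3⟩
    refine ⟨⟨ht1, ht2⟩, fun hcon => ht3 ?_⟩
    obtain ⟨h4, h5, h6⟩ := hcon
    rw [N_eq, NQ_ord, NQ_ord, NQ_box, K_eq]
    exact ⟨h5, h4, h6⟩
  · rw [K_eq]
    refine ⟨(H370.A5.K_facts h0 h1).1, le_trans ?_ (H344.KK_lower r)⟩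
    have h2 := H370.Expl.cMTinv_num
    have h3 : Real.pi ^ 2 ≤ 9.87 := by
      have h4 := Real.pi_lt_d4
      have h5 := Real.pi_pos
      norm_num at h4 ⊢
      nlinarith
    have h6 : 0 ≤ r ^ 2 := sq_nonneg r
    have e1 : (2 * Real.pi * r) ^ 2 / 2 * (H370.cMTinv - 5 / 4) =
        2 * (Real.pi ^ 2 * (H370.cMTinv - 5 / 4)) * r ^ 2 := by ring
    rw [e1]
    have h7 : Real.pi ^ 2 * (H370.cMTinv - 5 / 4) ≤ 0.77 := by
      have hc : H370.cMTinv - 5 / 4 ≤ 0.077503 := by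
        norm_num at h2 ⊢
        linarith
      have hc0 : 0 ≤ H370.cMTinv - 5 / 4 := by
        have := H344.cMTinv_ge
        linarith
      calc Real.pi ^ 2 * (H370.cMTinv - 5 / 4) ≤ 9.87 * 0.077503 :=
            mul_le_mul h3 hc hc0 (by norm_num)
        _ ≤ 0.77 := by norm_num
    have h8 : 2 * (Real.pi ^ 2 * (H370.cMTinv - 5 / 4)) * r ^ 2 ≤ 1.54 * r ^ 2 := by
      apply mul_le_mul_of_nonneg_right _ h6
      norm_num at h7 ⊢
      linarith
    linarith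

end Pool.Agent.Results.MP_af3d17_nt.IsolatedAlmostAllShort
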